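import Pool.Agent.H38.AB.Targets

/-!
# Board `aab_modules` (MP_7ecdd4_nt): common lemmas for the rows CLE and CLA
-/

set_option autoImplicit false

open Pool.Agent.H38.RB Pool.Agent.H38.PS Pool.Agent.H82.RD Pool.Agent.H38.AB

namespace Pool.Agent.H18.AB

lemma pd_pos {S : Finset ℕ} (hS : ∀ p ∈ S, p.Prime) : 0 < pd S :=
  Finset.prod_pos fun p hp => (hS p hp).pos

lemma pd_mono {S T : Finset ℕ} (hT : ∀ p ∈ T, p.Prime) (h : S ⊆ T) : pd S ≤ pd T :=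
  Nat.le_of_dvd (pd_pos hT) (Finset.prod_dvd_prod_of_subset _ _ _ h)

lemma pd_pf_pos (n : ℕ) : 0 < pd n.primeFactors := pd_pos fun _ hp => Nat.prime_of_mem_primeFactors hp

lemma base_ge {X : ℝ} (V : ℕ) (hX : 2 ≤ X) : 13 ≤ ((V : ℝ) + 2) * (4 * Real.log X + 4) := by
  have h1 : Real.log 2 ≤ Real.log X := Real.log_le_log (by norm_num) hX
  have h2 := Real.log_two_gt_d9
  have h3 : (0 : ℝ) ≤ V := by positivity
  nlinarith

lemma Lo_nonneg {X : ℝ} (K Ω V : ℕ) (hX : 2 ≤ X) : 0 ≤ Lo K X Ω V := by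
  have := base_ge V hX
  unfold Lo
  positivity

lemma Lo_mul (K K' : ℕ) (X : ℝ) (Ω V : ℕ) : Lo K X Ω V * Lo K' X Ω V = Lo (K + K') X Ω V := by
  unfold Lo
  rw [← pow_add, ← add_mul]

lemma Lo_two {X : ℝ} (Ω V : ℕ) (hX : 2 ≤ X) : 108 ≤ Lo 2 X Ω V := by
  have h := base_ge V hX
  unfold Lo
  calc (108 : ℝ) ≤ 13 ^ 2 := by norm_num
    _ ≤ (((V : ℝ) + 2) * (4 * Real.log X + 4)) ^ 2 := pow_le_pow_left₀ (by norm_num) h 2
    _ ≤ _ := pow_le_pow_right₀ (by linarith) (by omega)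

lemma Lo_mono {X : ℝ} {K K' : ℕ} (Ω V : ℕ) (hX : 2 ≤ X) (h : K ≤ K') :
    Lo K X Ω V ≤ Lo K' X Ω V := by
  have hb := base_ge V hX
  unfold Lo
  exact pow_le_pow_right₀ (by linarith) (Nat.mul_le_mul_right _ h)

/-- counting with weights -/
lemma count {ι α : Type} (A : Set α) (I : Finset ι) (ψ : ι → α) (w : ι → ℝ)
    (hw : ∀ i ∈ I, 0 ≤ w i) (h : ∀ x ∈ A, ∃ i ∈ I, 1 ≤ w i ∧ ψ i = x) :
    A.Finite ∧ (A.ncard : ℝ) ≤ ∑ i ∈ I, w i := by
  classical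
  have hsub : A ⊆ ((I.filter fun i => 1 ≤ w i).image ψ : Finset α) := by
    intro x hx
    obtain ⟨i, hi, h1, h2⟩ := h x hx
    exact Finset.mem_coe.2 (Finset.mem_image.2 ⟨i, Finset.mem_filter.2 ⟨hi, h1⟩, h2⟩)
  refine ⟨(Finset.finite_toSet _).subset hsub, ?_⟩
  have h1 : A.ncard ≤ (I.filter fun i => 1 ≤ w i).card := by
    have h2 := Set.ncard_le_ncard hsub (Finset.finite_toSet _)
    rw [Set.ncard_coe_finset] at h2
    exact h2.trans Finset.card_image_le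
  calc (A.ncard : ℝ) ≤ ((I.filter fun i => 1 ≤ w i).card : ℝ) := by exact_mod_cast h1
    _ = ∑ i ∈ I.filter (fun i => 1 ≤ w i), (1 : ℝ) := by simp
    _ ≤ ∑ i ∈ I.filter (fun i => 1 ≤ w i), w i :=
        Finset.sum_le_sum fun i hi => (Finset.mem_filter.1 hi).2
    _ ≤ ∑ i ∈ I, w i := Finset.sum_le_sum_of_subset_of_nonneg (Finset.filter_subset _ _)
        fun i hi _ => hw i hi

lemma pr_ne {x : Fin 3 → ℤ} (hx : Adm x) : pr x ≠ 0 := by
  unfold pr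
  rw [Int.natAbs_ne_zero]
  exact mul_ne_zero (mul_ne_zero (hx.1 0) (hx.1 1)) (hx.1 2)

lemma dvd_pr (x : Fin 3 → ℤ) (i : Fin 3) : (x i).natAbs ∣ pr x := by
  unfold pr
  rw [Int.natAbs_mul, Int.natAbs_mul]
  fin_cases i
  · exact (Dvd.intro _ rfl : (x 0).natAbs ∣ (x 0).natAbs * (x 1).natAbs).mul_right _
  · exact (Dvd.intro_left _ rfl : (x 1).natAbs ∣ (x 0).natAbs * (x 1).natAbs).mul_right _
  · exact Dvd.intro_left _ rfl

lemma mem_Nf (hNSU : T_NSU) {X : ℝ} {Ω V : ℕ} (hX : 2 ≤ X) {x : Fin 3 → ℤ} (hx : x ∈ Fw X Ω V)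
    {d : ℕ} (hd : d ∣ pr x) : d ∈ Nf X Ω V := by
  obtain ⟨hA, h1, h2, h3⟩ := hx
  have hp := pr_ne hA
  have hd0 : d ≠ 0 := fun h => hp (by rw [h] at hd; exact Nat.eq_zero_of_zero_dvd hd)
  have hsub : d.primeFactors ⊆ (pr x).primeFactors := Nat.primeFactors_mono hd hp
  refine (hNSU X Ω V hX).1 d hd0 ?_ ?_ ?_
  · refine le_trans ?_ h1
    exact_mod_cast pd_mono (fun _ h => Nat.prime_of_mem_primeFactors h) hsub
  · exact (Finset.card_le_card hsub).trans h2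
  · intro p
    exact ((Nat.factorization_le_iff_dvd hd0 hp).2 hd p).trans (h3 p)

/-- the triple with the entries `s m`, `s' n` at `b`, `c` -/
def psi (b c : Fin 3) (s s' : ℤ) (m n : ℕ) : Fin 3 → ℤ :=
  fun i => if i = b then s * m else if i = c then s' * n else -(s * m) - s' * n

lemma sum3 {x : Fin 3 → ℤ} (hx : x 0 + x 1 + x 2 = 0) {a b c : Fin 3} (hab : a ≠ b) (hac : a ≠ c)
    (hbc : b ≠ c) : x a + x b + x c = 0 := by
  fin_cases a <;> fin_cases b <;> fin_cases c <;> simp at hab hac hbc ⊢ <;> omega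

lemma recon {x : Fin 3 → ℤ} (hx : x 0 + x 1 + x 2 = 0) {b c : Fin 3} (hbc : b ≠ c) :
    psi b c (x b).sign (x c).sign (x b).natAbs (x c).natAbs = x := by
  funext i
  unfold psi
  rw [Int.sign_mul_natAbs, Int.sign_mul_natAbs]
  split_ifs with h1 h2
  · rw [h1]
  · rw [h2]
  · have := sum3 hx h1 h2 hbc
    omega

/-- the signs -/
def sg : Finset ℤ := {1, -1}

lemma sign_mem {z : ℤ} (hz : z ≠ 0) : z.sign ∈ sg := by
  unfold sg
  rcases lt_or_gt_of_ne hz with h | h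
  · rw [Int.sign_eq_neg_one_of_neg h]; simp
  · rw [Int.sign_eq_one_of_pos h]; simp

lemma sg_card : sg.card = 2 := by decide

end Pool.Agent.H18.AB
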