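import Pool.Agent.H18.AB.Base

/-!
# Board `aab_modules` (MP_7ecdd4_nt), row CLA: the triples with a small entry
-/

set_option autoImplicit false

open Pool.Agent.H38.RB Pool.Agent.H38.PS Pool.Agent.H82.RD Pool.Agent.H38.AB

namespace Pool.Agent.H18.AB

lemma ht_le {x : Fin 3 → ℤ} {a b c : Fin 3} (hab : a ≠ b) (hac : a ≠ c) (hbc : b ≠ c) :
    ht x ≤ max (x a).natAbs (max (x b).natAbs (x c).natAbs) := by
  unfold ht
  fin_cases a <;> fin_cases b <;> fin_cases c <;> simp at hab hac hbc ⊢ <;> omega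

lemma log_sub_le {u v w D : ℝ} (hu : 0 < u) (hv : 0 < v) (h1 : u - v ≤ w)
    (h2 : w ≤ D * v) : Real.log u - Real.log v ≤ D := by
  rw [← Real.log_div hu.ne' hv.ne']
  have h3 := Real.log_le_sub_one_of_pos (div_pos hu hv)
  have h4 : u / v - 1 ≤ D := by
    rw [sub_le_iff_le_add, div_le_iff₀ hv]
    linarith
  linarith

lemma pd_mul_le {x : Fin 3 → ℤ} (hx : Adm x) {a b : Fin 3} (hab : a ≠ b) :
    pd (x a).natAbs.primeFactors * pd (x b).natAbs.primeFactors ≤ pd (pr x).primeFactors := by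
  have hp := pr_ne hx
  have hcop : (x a).natAbs.Coprime (x b).natAbs := Int.isCoprime_iff_gcd_eq_one.1 (hx.2.1 a b hab)
  have hdis : Disjoint (x a).natAbs.primeFactors (x b).natAbs.primeFactors :=
    hcop.disjoint_primeFactors
  have h1 : pd ((x a).natAbs.primeFactors ∪ (x b).natAbs.primeFactors) =
      pd (x a).natAbs.primeFactors * pd (x b).natAbs.primeFactors := Finset.prod_union hdis
  rw [← h1]
  exact pd_mono (fun _ h => Nat.prime_of_mem_primeFactors h)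
    (Finset.union_subset (Nat.primeFactors_mono (dvd_pr x a) hp)
      (Nat.primeFactors_mono (dvd_pr x b) hp))

theorem pf_CLA (hNSU : T_NSU) (hGEA : T_GEA) : T_CLA := by
  classical
  intro X Ω V hX
  have hX0 : 0 < X := by linarith
  set N := Nf X Ω V with hN
  set J : Finset (Fin 3 × Fin 3 × ℤ × ℤ) := Finset.univ ×ˢ Finset.univ ×ˢ sg ×ˢ sg with hJ
  have hJc : J.card = 36 := by
    rw [hJ]
    simp only [Finset.card_product, sg_card, Finset.card_univ, Fintype.card_fin]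
  set wt : ℕ × ℕ → ℝ := fun t => if X ^ 5 * |Real.log t.1 - Real.log t.2| ≤ 1 then
    X ^ (1 / 2 : ℝ) * (1 / Real.sqrt ((pd t.1.primeFactors : ℝ) * pd t.2.primeFactors)) else 0
    with hwt
  have hwt0 : ∀ t, 0 ≤ wt t := by
    intro t
    rw [hwt]
    dsimp only
    split_ifs
    · positivity
    · exact le_rfl
  have hsum : ∑ i ∈ J ×ˢ (N ×ˢ N), wt i.2 ≤ X ^ (1 / 2 : ℝ) * Lo 11 X Ω V := by
    rw [Finset.sum_product]
    simp only [Finset.sum_const]
    rw [hJc]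
    have h1 : ∑ t ∈ N ×ˢ N, wt t ≤ X ^ (1 / 2 : ℝ) * Lo 8 X Ω V := by
      rw [hwt]
      dsimp only
      rw [← Finset.sum_filter, ← Finset.mul_sum]
      exact mul_le_mul_of_nonneg_left (hGEA X (X ^ 5) Ω V hX le_rfl) (by positivity)
    have h2 : Lo 11 X Ω V = Lo 8 X Ω V * (Lo 2 X Ω V * Lo 1 X Ω V) := by
      rw [Lo_mul, Lo_mul]
    have h3 := Lo_two Ω V hX
    have h4 : 1 ≤ Lo 1 X Ω V := by
      unfold Lo
      exact one_le_pow₀ (by linarith [base_ge V hX])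
    have h5 := Lo_nonneg 8 Ω V hX
    have h6 : (36 : ℝ) ≤ Lo 2 X Ω V * Lo 1 X Ω V := by nlinarith
    have h7 : (36 : ℕ) • ∑ t ∈ N ×ˢ N, wt t = 36 * ∑ t ∈ N ×ˢ N, wt t := by
      rw [nsmul_eq_mul]; norm_num
    rw [h7]
    calc 36 * ∑ t ∈ N ×ˢ N, wt t ≤ 36 * (X ^ (1 / 2 : ℝ) * Lo 8 X Ω V) := by linarith
      _ = X ^ (1 / 2 : ℝ) * (Lo 8 X Ω V * 36) := by ring
      _ ≤ X ^ (1 / 2 : ℝ) * Lo 11 X Ω V := by
        rw [h2]
        exact mul_le_mul_of_nonneg_left (mul_le_mul_of_nonneg_left h6 h5) (by positivity)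
  have hc := count {x | x ∈ Fw X Ω V ∧ PA X x} (J ×ˢ (N ×ˢ N))
    (fun i => psi i.1.1 i.1.2.1 i.1.2.2.1 i.1.2.2.2 i.2.1 i.2.2) (fun i => wt i.2)
    (fun i _ => hwt0 _) ?_
  · exact ⟨hc.1, hc.2.trans hsum⟩
  rintro x ⟨hxF, c, hc⟩
  obtain ⟨hA, h1, h2, h3⟩ := id hxF
  obtain ⟨a, b, hab, hac, hbc⟩ : ∃ a b : Fin 3, a ≠ b ∧ a ≠ c ∧ b ≠ c := by
    fin_cases c
    · exact ⟨1, 2, by decide, by decide, by decide⟩
    · exact ⟨0, 2, by decide, by decide, by decide⟩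
    · exact ⟨0, 1, by decide, by decide, by decide⟩
  have hm := mem_Nf hNSU hX hxF (dvd_pr x a)
  have hn := mem_Nf hNSU hX hxF (dvd_pr x b)
  refine ⟨((a, b, (x a).sign, (x b).sign), ((x a).natAbs, (x b).natAbs)), ?_, ?_,
    recon hA.2.2 hab⟩
  · simp only [hJ, Finset.mem_product, Finset.mem_univ, true_and]
    exact ⟨⟨sign_mem (hA.1 a), sign_mem (hA.1 b)⟩, hm, hn⟩
  · obtain ⟨m, hmm⟩ : ∃ m, m = (x a).natAbs := ⟨_, rfl⟩
    obtain ⟨n, hnn⟩ : ∃ n, n = (x b).natAbs := ⟨_, rfl⟩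
    obtain ⟨w, hww⟩ : ∃ w, w = (x c).natAbs := ⟨_, rfl⟩
    have hs := sum3 hA.2.2 hab hac hbc
    have hm0 : 0 < m := by rw [hmm]; exact Int.natAbs_pos.2 (hA.1 a)
    have hn0 : 0 < n := by rw [hnn]; exact Int.natAbs_pos.2 (hA.1 b)
    have hw0 : 0 < w := by rw [hww]; exact Int.natAbs_pos.2 (hA.1 c)
    have t1 : m ≤ n + w := by omega
    have t2 : n ≤ m + w := by omega
    have hH := ht_le (x := x) hab hac hbc
    rw [← hmm, ← hnn, ← hww] at hH
    rw [← hww] at hc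
    have hX6 : (64 : ℝ) ≤ X ^ 6 := by
      calc (64 : ℝ) = 2 ^ 6 := by norm_num
        _ ≤ X ^ 6 := pow_le_pow_left₀ (by norm_num) hX 6
    have hwr : (0 : ℝ) < w := by exact_mod_cast hw0
    have hwH : (64 : ℝ) * w ≤ ht x := by nlinarith
    have hwH' : 64 * w ≤ ht x := by exact_mod_cast hwH
    have hm2 : ht x ≤ 2 * m := by omega
    have hn2 : ht x ≤ 2 * n := by omega
    have hm2r : (ht x : ℝ) ≤ 2 * m := by exact_mod_cast hm2
    have hn2r : (ht x : ℝ) ≤ 2 * n := by exact_mod_cast hn2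
    have t1r : (m : ℝ) - n ≤ w := by
      have : (m : ℝ) ≤ n + w := by exact_mod_cast t1
      linarith
    have t2r : (n : ℝ) - m ≤ w := by
      have : (n : ℝ) ≤ m + w := by exact_mod_cast t2
      linarith
    have hmr : (0 : ℝ) < m := by exact_mod_cast hm0
    have hnr : (0 : ℝ) < n := by exact_mod_cast hn0
    have hX6p : (0 : ℝ) < X ^ 6 := by positivity
    have hwn : (w : ℝ) ≤ 2 / X ^ 6 * n := by
      rw [div_mul_eq_mul_div, le_div_iff₀ hX6p]
      linarith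
    have hwm : (w : ℝ) ≤ 2 / X ^ 6 * m := by
      rw [div_mul_eq_mul_div, le_div_iff₀ hX6p]
      linarith
    have hlog : |Real.log (m : ℝ) - Real.log (n : ℝ)| ≤ 2 / X ^ 6 := by
      rw [abs_sub_le_iff]
      exact ⟨log_sub_le hmr hnr t1r hwn, log_sub_le hnr hmr t2r hwm⟩
    have hcond : X ^ 5 * |Real.log (m : ℝ) - Real.log (n : ℝ)| ≤ 1 := by
      calc X ^ 5 * |Real.log (m : ℝ) - Real.log (n : ℝ)| ≤ X ^ 5 * (2 / X ^ 6) :=
            mul_le_mul_of_nonneg_left hlog (by positivity)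
        _ = 2 / X := by field_simp
        _ ≤ 1 := by rw [div_le_one hX0]; exact hX
    rw [hwt]
    dsimp only
    rw [← hmm, ← hnn, if_pos hcond, mul_one_div, Real.sqrt_eq_rpow, one_le_div₀]
    · refine Real.rpow_le_rpow (by positivity) ?_ (by norm_num)
      refine le_trans ?_ h1
      rw [hmm, hnn]
      exact_mod_cast pd_mul_le hA hab
    · have h5 : (0 : ℝ) < pd m.primeFactors := by exact_mod_cast pd_pf_pos m
      have h6 : (0 : ℝ) < pd n.primeFactors := by exact_mod_cast pd_pf_pos n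
      positivity

end Pool.Agent.H18.AB
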