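import Pool.Agent.H18.AB.Base

/-!
# Board `aab_modules` (MP_7ecdd4_nt), row CLE: the triples with a good modulus
-/

set_option autoImplicit false

open Pool.Agent.H38.RB Pool.Agent.H38.PS Pool.Agent.H82.RD Pool.Agent.H38.AB

namespace Pool.Agent.H18.AB

lemma tp_dvd {G : Finset ℕ} {m : ℕ} (hm : m ≠ 0) (hG : G ⊆ m.primeFactors) : tp G m ∣ m := by
  have h1 : ∏ p ∈ m.primeFactors, p ^ m.factorization p = m :=
    Nat.prod_factorization_pow_eq_self hm
  calc tp G m ∣ ∏ p ∈ m.primeFactors, p ^ m.factorization p :=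
        Finset.prod_dvd_prod_of_subset _ _ _ hG
    _ = m := h1

lemma tp_pf {G : Finset ℕ} {m : ℕ} (hm : m ≠ 0) (hG : G ⊆ m.primeFactors) :
    (tp G m).primeFactors = G := by
  have hp : ∀ p ∈ G, p.Prime := fun p h => Nat.prime_of_mem_primeFactors (hG h)
  ext p
  unfold tp
  rw [Nat.mem_primeFactors]
  constructor
  · rintro ⟨h1, h2, -⟩
    obtain ⟨q, hq, h3⟩ := (Nat.Prime.prime h1).exists_mem_finset_dvd h2
    have h4 := (Nat.prime_dvd_prime_iff_eq h1 (hp q hq)).1 (h1.dvd_of_dvd_pow h3)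
    rw [h4]; exact hq
  · intro h
    refine ⟨hp p h, ?_, ?_⟩
    · refine dvd_trans ?_ (Finset.dvd_prod_of_mem _ h)
      exact dvd_pow_self _ ((hp p h).factorization_pos_of_dvd hm
        (Nat.dvd_of_mem_primeFactors (hG h))).ne'
    · exact Finset.prod_ne_zero_iff.2 fun q hq => pow_ne_zero _ (hp q hq).ne_zero

/-- the unit `- s s'` -/
def uu (g : ℕ) (s s' : ℤ) : (ZMod g)ˣ := if s = s' then -1 else 1

lemma cong {g m n : ℕ} {s s' : ℤ} (hs : s ∈ sg) (hs' : s' ∈ sg)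
    (h : ((s * m + s' * n : ℤ) : ZMod g) = 0) :
    (m : ZMod g) = (uu g s s' : ZMod g) * (n : ZMod g) := by
  unfold sg at hs hs'
  simp only [Finset.mem_insert, Finset.mem_singleton] at hs hs'
  unfold uu
  rcases hs with rfl | rfl <;> rcases hs' with rfl | rfl
  · push_cast at h
    rw [if_pos rfl]
    push_cast
    linear_combination h
  · push_cast at h
    rw [if_neg (by decide)]
    push_cast
    linear_combination h
  · push_cast at h
    rw [if_neg (by decide)]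
    push_cast
    linear_combination -h
  · push_cast at h
    rw [if_pos rfl]
    push_cast
    linear_combination -h

theorem pf_CLE (hNSU : T_NSU) (hGEM : T_GEM) : T_CLE := by
  classical
  intro X Z Ω V hX hZ
  have hX0 : 0 < X := by linarith
  obtain ⟨N, hN⟩ : ∃ N, N = Nf X Ω V := ⟨_, rfl⟩
  obtain ⟨J, hJ⟩ : ∃ J : Finset (Fin 3 × Fin 3 × ℤ × ℤ), J = Finset.univ ×ˢ Finset.univ ×ˢ sg ×ˢ sg :=
    ⟨_, rfl⟩
  have hJc : J.card = 36 := by
    rw [hJ]
    simp only [Finset.card_product, sg_card, Finset.card_univ, Fintype.card_fin]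
  obtain ⟨wt, hwt⟩ : ∃ wt : (Fin 3 × Fin 3 × ℤ × ℤ) → ℕ → ℕ × ℕ → ℝ, wt =
    fun (j : Fin 3 × Fin 3 × ℤ × ℤ) (g : ℕ) (t : ℕ × ℕ) =>
    if (X ^ 4 ≤ (g : ℝ) ∧ g.primeFactors.card ≤ Ω) ∧
      (t.1 : ZMod g) = (uu g j.2.2.1 j.2.2.2 : ZMod g) * (t.2 : ZMod g) ∧ IsUnit (t.1 : ZMod g) then
    (Z * (1 / (pd g.primeFactors : ℝ))) *
      (1 / Real.sqrt ((pd t.1.primeFactors : ℝ) * pd t.2.primeFactors)) else 0 := ⟨_, rfl⟩
  have hwt0 : ∀ j g t, 0 ≤ wt j g t := by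
    intro j g t
    rw [hwt]
    dsimp only
    split_ifs
    · positivity
    · exact le_rfl
  have hL8 := Lo_nonneg 8 Ω V hX
  have hin : ∀ j g, ∑ t ∈ N ×ˢ N, wt j g t ≤ (Z * (1 / (pd g.primeFactors : ℝ))) * Lo 8 X Ω V := by
    intro j g
    by_cases hg : X ^ 4 ≤ (g : ℝ) ∧ g.primeFactors.card ≤ Ω
    · have hg0 : NeZero g := ⟨by
        rintro rfl
        have : (0 : ℝ) < X ^ 4 := by positivity
        have := hg.1
        push_cast at this
        linarith⟩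
      have hgX : 2 * X ^ 3 ≤ (g : ℝ) := by
        refine le_trans ?_ hg.1
        have : (0 : ℝ) < X ^ 3 := by positivity
        nlinarith
      have h1 := hGEM X Ω V g (uu g j.2.2.1 j.2.2.2) hX hgX hg.2
      rw [← hN] at h1
      rw [hwt]
      simp only [hg, true_and]
      rw [← Finset.sum_filter, ← Finset.mul_sum]
      exact mul_le_mul_of_nonneg_left h1 (by positivity)
    · have h1 : ∑ t ∈ N ×ˢ N, wt j g t = 0 := by
        refine Finset.sum_eq_zero fun t _ => ?_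
        rw [hwt]
        dsimp only
        rw [if_neg (fun h => hg h.1)]
      rw [h1]
      positivity
  have hsum : ∑ i ∈ J ×ˢ (N ×ˢ (N ×ˢ N)), wt i.1 i.2.1 i.2.2 ≤ Z * Lo 11 X Ω V := by
    rw [Finset.sum_product]
    have h1 : ∀ j ∈ J, ∑ y ∈ N ×ˢ (N ×ˢ N), wt (j, y).1 (j, y).2.1 (j, y).2.2 ≤
        Z * Lo 1 X Ω V * Lo 8 X Ω V := by
      intro j _
      rw [Finset.sum_product]
      dsimp only
      calc ∑ g ∈ N, ∑ t ∈ N ×ˢ N, wt j g t
          ≤ ∑ g ∈ N, (Z * (1 / (pd g.primeFactors : ℝ))) * Lo 8 X Ω V :=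
            Finset.sum_le_sum fun g _ => hin j g
        _ = Z * (∑ g ∈ N, 1 / (pd g.primeFactors : ℝ)) * Lo 8 X Ω V := by
            rw [← Finset.sum_mul, ← Finset.mul_sum]
        _ ≤ Z * Lo 1 X Ω V * Lo 8 X Ω V := by
            refine mul_le_mul_of_nonneg_right (mul_le_mul_of_nonneg_left ?_ hZ) hL8
            rw [hN]
            exact (hNSU X Ω V hX).2
    refine (Finset.sum_le_sum h1).trans ?_
    rw [Finset.sum_const, hJc, nsmul_eq_mul]
    have h2 : Lo 11 X Ω V = Lo 1 X Ω V * Lo 8 X Ω V * Lo 2 X Ω V := by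
      rw [Lo_mul, Lo_mul]
    have h3 := Lo_two Ω V hX
    have h4 := Lo_nonneg 1 Ω V hX
    have h5 : 0 ≤ Z * (Lo 1 X Ω V * Lo 8 X Ω V) := by positivity
    rw [h2]
    calc ((36 : ℕ) : ℝ) * (Z * Lo 1 X Ω V * Lo 8 X Ω V)
        = Z * (Lo 1 X Ω V * Lo 8 X Ω V) * 36 := by push_cast; ring
      _ ≤ Z * (Lo 1 X Ω V * Lo 8 X Ω V) * Lo 2 X Ω V :=
          mul_le_mul_of_nonneg_left (by linarith) h5
      _ = Z * (Lo 1 X Ω V * Lo 8 X Ω V * Lo 2 X Ω V) := by ring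
  have hc := count {x | x ∈ Fw X Ω V ∧ PE X Z x} (J ×ˢ (N ×ˢ (N ×ˢ N)))
    (fun i => psi i.1.1 i.1.2.1 i.1.2.2.1 i.1.2.2.2 i.2.2.1 i.2.2.2) (fun i => wt i.1 i.2.1 i.2.2)
    (fun i _ => hwt0 _ _ _) ?_
  · exact ⟨hc.1, hc.2.trans hsum⟩
  rintro x ⟨hxF, a, b, c, G, hab, hac, hbc, hG, hGX, hGZ⟩
  obtain ⟨hA, h1, h2, h3⟩ := id hxF
  have hm := mem_Nf hNSU hX hxF (dvd_pr x b)
  have hn := mem_Nf hNSU hX hxF (dvd_pr x c)
  have ha0 : (x a).natAbs ≠ 0 := Int.natAbs_ne_zero.2 (hA.1 a)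
  have hgd := tp_dvd ha0 hG
  have hgN := mem_Nf hNSU hX hxF (hgd.trans (dvd_pr x a))
  have hgp := tp_pf ha0 hG
  obtain ⟨g, hg⟩ : ∃ g, g = tp G (x a).natAbs := ⟨_, rfl⟩
  rw [← hg] at hgd hgN hgp hGX
  rw [← hN] at hm hn hgN
  refine ⟨((b, c, (x b).sign, (x c).sign), (g, ((x b).natAbs, (x c).natAbs))), ?_, ?_,
    recon hA.2.2 hbc⟩
  · simp only [hJ, Finset.mem_product, Finset.mem_univ, true_and]
    exact ⟨⟨sign_mem (hA.1 b), sign_mem (hA.1 c)⟩, hgN, hm, hn⟩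
  · have hcg : g.primeFactors.card ≤ Ω := by
      refine le_trans (Finset.card_le_card ?_) h2
      exact Nat.primeFactors_mono (hgd.trans (dvd_pr x a)) (pr_ne hA)
    have hcong : (((x b).natAbs : ℕ) : ZMod g) =
        (uu g (x b).sign (x c).sign : ZMod g) * (((x c).natAbs : ℕ) : ZMod g) := by
      refine cong (sign_mem (hA.1 b)) (sign_mem (hA.1 c)) ?_
      rw [Int.sign_mul_natAbs, Int.sign_mul_natAbs]
      have h4 : x b + x c = -x a := by
        have := sum3 hA.2.2 hab hac hbc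
        omega
      rw [h4, Int.cast_neg, neg_eq_zero, ZMod.intCast_zmod_eq_zero_iff_dvd]
      exact (Int.natCast_dvd.2 hgd)
    have hun : IsUnit ((((x b).natAbs : ℕ) : ZMod g)) := by
      rw [ZMod.isUnit_iff_coprime]
      have h5 : (x b).natAbs.Coprime (x a).natAbs :=
        Int.isCoprime_iff_gcd_eq_one.1 (hA.2.1 b a hab.symm)
      exact h5.coprime_dvd_right hgd
    rw [hwt]
    dsimp only
    rw [if_pos ⟨⟨hGX, hcg⟩, hcong, hun⟩, hgp]
    have hG0 : (0 : ℝ) < pd G := by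
      have : 0 < pd G := pd_pos fun p h => Nat.prime_of_mem_primeFactors (hG h)
      exact_mod_cast this
    have h5 : (0 : ℝ) < pd (x b).natAbs.primeFactors := by exact_mod_cast pd_pf_pos _
    have h6 : (0 : ℝ) < pd (x c).natAbs.primeFactors := by exact_mod_cast pd_pf_pos _
    have h7 : 0 < Real.sqrt ((pd (x b).natAbs.primeFactors : ℝ) * pd (x c).natAbs.primeFactors) :=
      Real.sqrt_pos.2 (by positivity)
    rw [mul_assoc, one_div_mul_one_div, mul_one_div, one_le_div₀ (by positivity)]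
    exact hGZ

end Pool.Agent.H18.AB
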